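import Pool.Agent.H29.SX.Targets

/-!
# MP_c65535_nt, board shx_modules, row HTS
-/

set_option autoImplicit false

namespace Pool.Agent.H88.SX

open NumberField Height Finset Polynomial Pool.Agent.H24.RD Pool.Agent.H23.RDD Pool.Agent.H29.RQ
  Pool.Agent.H29.SX

theorem ht_npow {M : Type} [Field M] [NumberField M] {R : ℕ} (y : M) (m : Fin R → ℕ) (E : ℕ)
    (hm : ∀ j, m j ≤ E) : logHeight (fun j => y ^ m j) ≤ E * logHeight₁ y := by
  have hne : (![y, 1] : Fin 2 → M) ≠ 0 := by
    intro h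
    have := congrFun h 1
    simp at this
  have h1 := logHeight_comp_le (K := M)
    (fun j : Fin R => (fun a : Fin E => if a.val < m j then (0 : Fin 2) else 1))
    (fun I : Fin E → Fin 2 => ∏ a, (![y, 1] : Fin 2 → M) (I a))
  have h2 := logHeight_fun_prod_eq (K := M) (α := Fin E) (ι := fun _ => Fin 2)
    (x := fun _ => (![y, 1] : Fin 2 → M)) (fun _ => hne)
  rw [h2] at h1
  have h3 : (fun I : Fin E → Fin 2 => ∏ a, (![y, 1] : Fin 2 → M) (I a)) ∘
      (fun j : Fin R => (fun a : Fin E => if a.val < m j then (0 : Fin 2) else 1)) =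
      fun j => y ^ m j := by
    funext j
    show ∏ a : Fin E, (![y, 1] : Fin 2 → M) (if a.val < m j then (0 : Fin 2) else 1) = y ^ m j
    have h4 : ∀ a : Fin E, (![y, 1] : Fin 2 → M) (if a.val < m j then (0 : Fin 2) else 1) =
        if a.val < m j then y else 1 := by
      intro a
      split_ifs <;> rfl
    rw [prod_congr rfl fun a _ => h4 a, Fin.prod_univ_eq_prod_range
      (fun a => if a < m j then y else 1) E, ← prod_filter, prod_const]
    congr 1
    have h5 : (range E).filter (fun a => a < m j) = range (m j) := by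
      ext a
      rw [mem_filter, mem_range, mem_range]
      have := hm j
      omega
    rw [h5, card_range]
  rw [h3, sum_const, card_univ, Fintype.card_fin, nsmul_eq_mul, ← logHeight₁_eq_logHeight] at h1
  exact h1

theorem ht_zpow {M : Type} [Field M] [NumberField M] {R : ℕ} (y : M) (hy : y ≠ 0)
    (e : Fin R → ℤ) (E : ℕ) (he : ∀ j, |e j| ≤ E) :
    logHeight (fun j => y ^ e j) ≤ 2 * E * logHeight₁ y := by
  have h1 := ht_npow (R := R) y (fun j => (e j + E).toNat) (2 * E) (by
    intro j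
    have := abs_le.1 (he j)
    show (e j + E).toNat ≤ 2 * E
    omega)
  have h2 : (fun j => y ^ ((e j + E).toNat)) = (y ^ E) • (fun j => y ^ e j) := by
    funext j
    have := abs_le.1 (he j)
    rw [Pi.smul_apply, smul_eq_mul, ← zpow_natCast, ← zpow_natCast, ← zpow_add₀ hy]
    congr 1
    omega
  rw [h2, logHeight_smul_eq_logHeight _ (pow_ne_zero _ hy)] at h1
  push_cast at h1
  exact h1

theorem ht_prod {M : Type} [Field M] [NumberField M] {R : ℕ} {ι : Type} (s : Finset ι)
    (f : ι → Fin R → M) : logHeight (fun j => ∏ i ∈ s, f i j) ≤ ∑ i ∈ s, logHeight (f i) := by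
  classical
  induction s using Finset.induction_on with
  | empty =>
    have h1 : (fun j : Fin R => ∏ i ∈ (∅ : Finset ι), f i j) = 1 := by
      funext j
      rw [prod_empty, Pi.one_apply]
    rw [h1, logHeight_one, sum_empty]
  | insert a s ha ih =>
    have h1 : (fun j : Fin R => ∏ i ∈ insert a s, f i j) = f a * (fun j => ∏ i ∈ s, f i j) := by
      funext j
      rw [prod_insert ha, Pi.mul_apply]
    rw [h1, sum_insert ha]
    exact (logHeight_mul_le _ _).trans (by linarith)

theorem pf_HTS : T_HTS := by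
  intro M _ _ r R q n β g γ x nn A B hβ hg hγ hn hgn hA hB hA' hB'
  have hnr : (0 : ℝ) < n := by exact_mod_cast hn
  have hq : (fun j => (pt γ β (nn j)) ^ q) = (fun j => pt γ β (nn j)) ^ q := by
    funext j
    rw [Pi.pow_apply]
  rw [hq, logHeight_pow]
  refine mul_le_mul_of_nonneg_left ?_ (Nat.cast_nonneg q)
  have hpw : (fun j => pt γ β (nn j)) ^ n = (fun j => (β * g) ^ ((n : ℤ) * nn j 0)) *
      (fun j => ∏ i, γ i ^ ((n : ℤ) * nn j i.succ - nn j 0 * x i)) := by
    funext j
    rw [Pi.pow_apply, Pi.mul_apply]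
    unfold pt
    have h1 : g ^ ((n : ℤ) * nn j 0) = ∏ i, γ i ^ (nn j 0 * x i) := by
      rw [zpow_mul, zpow_natCast, hgn, ← prod_zpow]
      refine prod_congr rfl fun i _ => ?_
      rw [← zpow_mul, mul_comm]
    rw [mul_zpow, h1, mul_assoc, ← prod_mul_distrib, mul_pow, ← prod_pow]
    congr 1
    · rw [← zpow_natCast, ← zpow_mul, mul_comm]
    · refine prod_congr rfl fun i _ => ?_
      rw [← zpow_natCast, ← zpow_mul, ← zpow_add₀ (hγ i)]
      congr 1
      ring
  have h1 : (n : ℝ) * logHeight (fun j => pt γ β (nn j)) ≤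
      2 * ((n * ⌊A⌋₊ : ℕ) : ℝ) * logHeight₁ (β * g) +
        ∑ i, 2 * ((⌊n * B⌋₊ : ℕ) : ℝ) * logHeight₁ (γ i) := by
    rw [← logHeight_pow, hpw]
    refine (logHeight_mul_le _ _).trans (add_le_add ?_ ?_)
    · refine ht_zpow (β * g) (mul_ne_zero hβ hg) _ _ fun j => ?_
      have h2 : |nn j 0| ≤ (⌊A⌋₊ : ℤ) := by
        have h3 : (((nn j 0).natAbs : ℕ) : ℝ) ≤ A := by
          rw [Nat.cast_natAbs, Int.cast_abs]
          exact hA' j
        have h4 := Nat.le_floor h3
        rw [Int.abs_eq_natAbs]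
        exact_mod_cast h4
      rw [abs_mul, Nat.abs_cast]
      push_cast
      exact mul_le_mul_of_nonneg_left h2 (Int.natCast_nonneg n)
    · refine (ht_prod _ _).trans (sum_le_sum fun i _ => ?_)
      refine ht_zpow (γ i) (hγ i) _ _ fun j => ?_
      have h3 : ((((n : ℤ) * nn j i.succ - nn j 0 * x i).natAbs : ℕ) : ℝ) ≤ n * B := by
        rw [Nat.cast_natAbs, Int.cast_abs]
        push_cast
        have h4 : (n : ℝ) * nn j i.succ - nn j 0 * x i =
            n * ((nn j i.succ : ℝ) - nn j 0 * (x i / n)) := by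
          field_simp
        rw [h4, abs_mul, abs_of_pos hnr]
        exact mul_le_mul_of_nonneg_left (hB' j i) hnr.le
      have h4 := Nat.le_floor h3
      rw [Int.abs_eq_natAbs]
      exact_mod_cast h4
  have h2 : ((n * ⌊A⌋₊ : ℕ) : ℝ) ≤ n * A := by
    push_cast
    exact mul_le_mul_of_nonneg_left (Nat.floor_le hA) hnr.le
  have h3 : ((⌊n * B⌋₊ : ℕ) : ℝ) ≤ n * B := Nat.floor_le (mul_nonneg hnr.le hB)
  have h4 : 2 * ((n * ⌊A⌋₊ : ℕ) : ℝ) * logHeight₁ (β * g) ≤
      2 * (n * A) * logHeight₁ (β * g) := by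
    have := zero_le_logHeight₁ (β * g)
    nlinarith
  have h5 : ∑ i, 2 * ((⌊n * B⌋₊ : ℕ) : ℝ) * logHeight₁ (γ i) ≤
      2 * (n * B) * ∑ i, logHeight₁ (γ i) := by
    rw [mul_sum]
    refine sum_le_sum fun i _ => ?_
    have := zero_le_logHeight₁ (γ i)
    nlinarith
  have h6 : (n : ℝ) * logHeight (fun j => pt γ β (nn j)) ≤
      n * (2 * A * logHeight₁ (β * g) + 2 * B * ∑ i, logHeight₁ (γ i)) := by
    calc (n : ℝ) * logHeight (fun j => pt γ β (nn j)) ≤ _ := h1
      _ ≤ 2 * (n * A) * logHeight₁ (β * g) + 2 * (n * B) * ∑ i, logHeight₁ (γ i) :=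
        add_le_add h4 h5
      _ = _ := by ring
  exact le_of_mul_le_mul_left h6 hnr

end Pool.Agent.H88.SX
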