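import Pool.Agent.H29.SX.Targets

/-!
# MP_c65535_nt, board shx_modules, row NOR
-/

set_option autoImplicit false

namespace Pool.Agent.H88.SX

open NumberField Height Finset Polynomial Pool.Agent.H24.RD Pool.Agent.H23.RDD Pool.Agent.H29.RQ
  Pool.Agent.H29.SX

theorem pf_NOR : T_NOR := by
  classical
  intro F Ω _ _ _ _ _ _ _ r γ hγ E d β g hβ hCj hRed hg
  obtain ⟨hg0, n, hn, x, hx⟩ := hg
  have hnz : (0 : ℤ) < n := by exact_mod_cast hn
  have hγ' : ∀ i, algebraMap F Ω (γ i) ≠ 0 := fun i => by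
    rw [Ne, map_eq_zero]
    exact hγ i
  set G : Ω := algebraMap F Ω (∏ i, γ i ^ (x i / n)) with hG
  have hG1 : G = ∏ i, (algebraMap F Ω (γ i)) ^ (x i / n) := by
    rw [hG, map_prod]
    exact Finset.prod_congr rfl fun i _ => map_zpow₀ _ _ _
  have hG0 : G ≠ 0 := by
    rw [hG1, Finset.prod_ne_zero_iff]
    exact fun i _ => zpow_ne_zero _ (hγ' i)
  have hσG : ∀ σ : Ω ≃ₐ[F] Ω, σ G = G := fun σ => σ.commutes _
  have hpow : (g / G) ^ n = ∏ i, (algebraMap F Ω (γ i)) ^ (x i % n) := by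
    rw [div_pow, hx, hG1, ← Finset.prod_pow, ← Finset.prod_div_distrib]
    refine Finset.prod_congr rfl fun i _ => ?_
    rw [← zpow_natCast, ← zpow_mul, ← zpow_sub₀ (hγ' i)]
    congr 1
    have := Int.emod_add_mul_ediv (x i) n
    linarith [mul_comm (x i / (n : ℤ)) n]
  refine ⟨β * G, g / G, n, fun i => x i % n, mul_ne_zero hβ hG0, div_ne_zero hg0 hG0, ?_, ?_, ?_,
    ⟨div_ne_zero hg0 hG0, n, hn, fun i => x i % n, hpow⟩, hn, hpow, fun i =>
      ⟨Int.emod_nonneg _ hnz.ne', Int.emod_lt_of_pos _ hnz⟩⟩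
  · field_simp
  · obtain ⟨s, hs, hs2⟩ := hCj
    refine ⟨s.image (fun y => y * G), card_image_le.trans hs, ?_⟩
    intro σ hσ
    rw [map_mul, hσG]
    exact mem_image_of_mem _ (hs2 σ hσ)
  · intro σ hσ k hk hpk
    rw [map_mul, hσG, mul_pow, mul_pow] at hpk
    have h1 := mul_right_cancel₀ (pow_ne_zero k hG0) hpk
    rw [map_mul, hσG, hRed σ hσ k hk h1]

end Pool.Agent.H88.SX
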